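import Pool.Agent.W700.KK.Defs

/-!
KK-KA: compact operators on an `ℓ₁`-sum of finite dimensional spaces are approximable.
-/

set_option autoImplicit false

open Filter Topology

namespace Pool.Agent.W177.KK

open W700.KK

theorem ka : S_KA := by
  classical
  intro I F _ _ _ S hS ε hε
  let ev : ∀ i, lp F 1 →L[ℂ] F i := fun i => LinearMap.mkContinuous
    { toFun := fun x => x i
      map_add' := fun x y => rfl
      map_smul' := fun c x => rfl } 1
    (fun x => by rw [one_mul]; exact lp.norm_apply_le_norm one_ne_zero x i)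
  have hev : ∀ i x, ev i x = x i := fun i x => rfl
  let P : Finset I → (lp F 1 →L[ℂ] lp F 1) := fun J =>
    ∑ i ∈ J, (lp.singleContinuousLinearMap ℂ F 1 i).comp (ev i)
  have hP : ∀ J x, P J x = ∑ i ∈ J, lp.single 1 i (x i) := by
    intro J x
    simp only [P, _root_.sum_apply, ContinuousLinearMap.comp_apply, hev]
    exact Finset.sum_congr rfl fun i _ => rfl
  have hPn : ∀ J x, ‖x - P J x‖ ≤ ‖x‖ := by
    intro J x
    have h := lp.norm_sub_norm_compl_sub_single (p := 1) (by simp) x J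
    simp only [ENNReal.toReal_one, Real.rpow_one] at h
    rw [hP]
    have : 0 ≤ ∑ i ∈ J, ‖x i‖ := Finset.sum_nonneg fun i _ => norm_nonneg _
    linarith
  have hfd : ∀ J, FiniteDimensional ℂ (LinearMap.range (P J : lp F 1 →ₗ[ℂ] lp F 1)) := by
    intro J
    let Φ : (∀ i : J, F i) →ₗ[ℂ] lp F 1 :=
      ∑ i : J, (lp.lsingle (𝕜 := ℂ) (E := F) 1 (i : I)).comp (LinearMap.proj i)
    have hΦ : ∀ v, Φ v = ∑ i : J, lp.single 1 (i : I) (v i) := by
      intro v
      simp only [Φ, LinearMap.sum_apply, LinearMap.comp_apply, LinearMap.proj_apply]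
      exact Finset.sum_congr rfl fun i _ => rfl
    have hle : LinearMap.range (P J : lp F 1 →ₗ[ℂ] lp F 1) ≤ LinearMap.range Φ := by
      rintro _ ⟨x, rfl⟩
      refine ⟨fun i => x i, ?_⟩
      rw [hΦ, ContinuousLinearMap.coe_coe, hP]
      exact (Finset.sum_coe_sort J (fun i => (lp.single 1 i (x i) : lp F 1)))
    exact Submodule.finiteDimensional_of_le hle
  have hlim : ∀ x, Tendsto (fun J => P J x) atTop (𝓝 x) := by
    intro x
    have h := lp.hasSum_single (p := 1) (by simp) x
    simp only [hP]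
    exact h
  -- compactness
  have hK := hS.isCompact_closure_image_closedBall (f := (S : lp F 1 →ₗ[ℂ] lp F 1)) 1
  obtain ⟨t, -, htf, htc⟩ := hK.finite_cover_balls (show 0 < ε / 3 by positivity)
  have hJ : ∀ᶠ J in atTop, ∀ z ∈ t, ‖z - P J z‖ ≤ ε / 3 := by
    rw [eventually_all_finite htf]
    intro z _
    have h := (Metric.tendsto_nhds.1 (hlim z)) (ε / 3) (by positivity)
    filter_upwards [h] with J hJ
    rw [dist_comm, dist_eq_norm] at hJ
    exact hJ.le
  obtain ⟨J, hJ⟩ := hJ.exists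
  refine ⟨(P J).comp S, ?_, ?_⟩
  · have hle : LinearMap.range (((P J).comp S : lp F 1 →L[ℂ] lp F 1) : lp F 1 →ₗ[ℂ] lp F 1) ≤
        LinearMap.range (P J : lp F 1 →ₗ[ℂ] lp F 1) := by
      rintro _ ⟨x, rfl⟩
      exact ⟨S x, rfl⟩
    have := hfd J
    exact Submodule.finiteDimensional_of_le hle
  · refine ContinuousLinearMap.opNorm_le_of_unit_norm hε.le fun x hx => ?_
    have hxK : S x ∈ closure ((S : lp F 1 →ₗ[ℂ] lp F 1) '' Metric.closedBall 0 1) :=
      subset_closure ⟨x, by simp [hx], rfl⟩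
    obtain ⟨z, hz, hxz⟩ := Set.mem_iUnion₂.1 (htc hxK)
    rw [Metric.mem_ball, dist_eq_norm] at hxz
    have e : (S - (P J).comp S) x = (S x - z - P J (S x - z)) + (z - P J z) := by
      simp only [_root_.sub_apply, ContinuousLinearMap.comp_apply, map_sub]
      abel
    rw [e]
    calc ‖(S x - z - P J (S x - z)) + (z - P J z)‖ ≤ ‖S x - z - P J (S x - z)‖ + ‖z - P J z‖ :=
          norm_add_le _ _
      _ ≤ ‖S x - z‖ + ε / 3 := add_le_add (hPn _ _) (hJ z hz)
      _ ≤ ε := by linarith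

end Pool.Agent.W177.KK
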