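import Mathlib

/-!
KK-KBAR: H-unitality (Wodzicki) of a possibly non-unital complex algebra, and the algebras of compact
and of approximable operators.
-/

set_option autoImplicit false

open scoped TensorProduct

namespace Pool.Agent.W177.KK

universe u

section
variable (A : Type u) [NonUnitalRing A] [Module ℂ A] [IsScalarTower ℂ A A] [SMulCommClass ℂ A A]

/-- the tuple `(a 0, ..., a i * a (i + 1), ..., a (n + 1))` -/
def contr {A : Type u} [Mul A] {n : ℕ} (i : Fin (n + 1)) (a : Fin (n + 2) → A) : Fin (n + 1) → A :=
  fun j => if j < i then a j.castSucc else if j = i then a i.castSucc * a i.succ else a j.succ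

variable {A} in
/-- changing one entry of `a` changes one entry of `contr i a`, linearly -/
theorem contr_update {n : ℕ} (i : Fin (n + 1)) (a : Fin (n + 2) → A) (k : Fin (n + 2)) :
    ∃ (j : Fin (n + 1)) (g : A →ₗ[ℂ] A), ∀ x,
      contr i (Function.update a k x) = Function.update (contr i a) j (g x) := by
  rcases lt_trichotomy k i.castSucc with hk | hk | hk
  · -- `k < i`
    have hkn : (k : ℕ) < n + 1 := by
      have h1 := i.2
      have h2 : (k : ℕ) < (i : ℕ) := hk
      omega
    refine ⟨⟨k, hkn⟩, LinearMap.id, fun x => ?_⟩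
    funext j
    by_cases hj : j = ⟨k, hkn⟩
    · subst hj
      have h1 : (⟨k, hkn⟩ : Fin (n + 1)) < i := hk
      rw [Function.update_self]
      simp only [contr, h1, if_true]
      have e : (⟨k, hkn⟩ : Fin (n + 1)).castSucc = k := Fin.ext rfl
      rw [e, Function.update_self]
      rfl
    · rw [Function.update_of_ne hj]
      simp only [contr]
      have h1 : j.castSucc ≠ k := by
        intro h
        have h0 := congrArg Fin.val h
        rw [Fin.val_castSucc] at h0
        exact hj (Fin.ext h0)
      have h2 : i.castSucc ≠ k := hk.ne'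
      have h3 : i.succ ≠ k := by
        intro h
        have := congrArg Fin.val h
        have h4 : (k : ℕ) < (i : ℕ) := hk
        rw [Fin.val_succ] at this
        omega
      rw [Function.update_of_ne h1, Function.update_of_ne h2, Function.update_of_ne h3]
      split_ifs with h4 h5
      · rfl
      · rfl
      · have h6 : j.succ ≠ k := by
          intro h
          have := congrArg Fin.val h
          have h7 : (k : ℕ) < (i : ℕ) := hk
          rw [Fin.val_succ] at this
          exact h4 (show (j : ℕ) < i by omega)
        rw [Function.update_of_ne h6]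
  · -- `k = i`
    subst hk
    refine ⟨i, (LinearMap.mulRight ℂ (a i.succ)), fun x => ?_⟩
    funext j
    by_cases hj : j = i
    · subst hj
      rw [Function.update_self]
      simp only [contr, lt_irrefl, if_false, if_true]
      rw [Function.update_self, Function.update_of_ne (by
        intro h
        have := congrArg Fin.val h
        rw [Fin.val_succ, Fin.val_castSucc] at this
        omega)]
      rfl
    · rw [Function.update_of_ne hj]
      simp only [contr, hj, if_false]
      have h1 : j.castSucc ≠ i.castSucc := fun h => hj (Fin.castSucc_injective _ h)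
      rw [Function.update_of_ne h1]
      split_ifs with h4
      · rfl
      · have h6 : j.succ ≠ i.castSucc := by
          intro h
          have := congrArg Fin.val h
          rw [Fin.val_succ, Fin.val_castSucc] at this
          exact h4 (show (j : ℕ) < i by omega)
        rw [Function.update_of_ne h6]
  · have hk1 : i.succ ≤ k := by
      have h0 : (i : ℕ) < (k : ℕ) := hk
      show (i.succ : ℕ) ≤ (k : ℕ)
      rw [Fin.val_succ]
      exact h0
    rcases hk1.eq_or_lt with hk2 | hk2
    · -- `k = i + 1`
      subst hk2
      refine ⟨i, (LinearMap.mulLeft ℂ (a i.castSucc)), fun x => ?_⟩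
      funext j
      by_cases hj : j = i
      · subst hj
        rw [Function.update_self]
        simp only [contr, lt_irrefl, if_false, if_true]
        rw [Function.update_self, Function.update_of_ne hk.ne]
        rfl
      · rw [Function.update_of_ne hj]
        simp only [contr, hj, if_false]
        have h1 : j.succ ≠ i.succ := fun h => hj (Fin.succ_injective _ h)
        rw [Function.update_of_ne h1]
        split_ifs with h4
        · have h6 : j.castSucc ≠ i.succ := by
            intro h
            have := congrArg Fin.val h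
            rw [Fin.val_succ, Fin.val_castSucc] at this
            have h7 : (j : ℕ) < i := h4
            omega
          rw [Function.update_of_ne h6]
        · rfl
    · -- `i + 1 < k`
      have hk0 : k ≠ 0 := by
        intro h
        rw [h] at hk
        exact absurd hk (by simp)
      refine ⟨k.pred hk0, LinearMap.id, fun x => ?_⟩
      have hik : i < k.pred hk0 := by
        show (i : ℕ) < (k.pred hk0 : ℕ)
        rw [Fin.val_pred]
        have h1 : (i.succ : ℕ) < (k : ℕ) := hk2
        rw [Fin.val_succ] at h1
        omega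
      funext j
      by_cases hj : j = k.pred hk0
      · subst hj
        rw [Function.update_self]
        simp only [contr]
        rw [if_neg hik.not_gt, if_neg hik.ne', Fin.succ_pred, Function.update_self]
        rfl
      · rw [Function.update_of_ne hj]
        simp only [contr]
        have h1 : j.succ ≠ k := by
          intro h
          apply hj
          subst h
          exact (Fin.pred_succ j).symm
        have h2 : i.castSucc ≠ k := hk.ne
        rw [Function.update_of_ne h1, Function.update_of_ne h2, Function.update_of_ne hk2.ne]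
        split_ifs with h4
        · have h6 : j.castSucc ≠ k := by
            intro h
            have := congrArg Fin.val h
            rw [Fin.val_castSucc] at this
            have h7 : (j : ℕ) < i := h4
            have h8 : (i.succ : ℕ) < (k : ℕ) := hk2
            rw [Fin.val_succ] at h8
            omega
          rw [Function.update_of_ne h6]
        · rfl
        · rfl

/-- the multilinear map `a ↦ a 0 ⊗ ... ⊗ a i * a (i + 1) ⊗ ... ⊗ a (n + 1)` -/
noncomputable def cM {n : ℕ} (i : Fin (n + 1)) :
    MultilinearMap ℂ (fun _ : Fin (n + 2) => A) (PiTensorProduct ℂ (fun _ : Fin (n + 1) => A)) where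
  toFun a := PiTensorProduct.tprod ℂ (contr i a)
  map_update_add' := by
    intro inst a k x y
    have hi : inst = instDecidableEqFin (n + 2) := Subsingleton.elim _ _
    subst hi
    obtain ⟨j, g, h⟩ := contr_update i a k
    rw [h, h, h, map_add, MultilinearMap.map_update_add]
  map_update_smul' := by
    intro inst a k c x
    have hi : inst = instDecidableEqFin (n + 2) := Subsingleton.elim _ _
    subst hi
    obtain ⟨j, g, h⟩ := contr_update i a k
    rw [h, h, map_smul, MultilinearMap.map_update_smul]

/-- the differential of the bar complex,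
`b' (a 0 ⊗ ... ⊗ a (n + 1)) = ∑ i ≤ n, (-1) ^ i a 0 ⊗ ... ⊗ a i * a (i + 1) ⊗ ... ⊗ a (n + 1)` -/
noncomputable def bp (n : ℕ) : PiTensorProduct ℂ (fun _ : Fin (n + 2) => A) →ₗ[ℂ]
    PiTensorProduct ℂ (fun _ : Fin (n + 1) => A) :=
  PiTensorProduct.lift (∑ i : Fin (n + 1), ((-1 : ℂ) ^ (i : ℕ)) • cM A i)

theorem bp_tprod (n : ℕ) (a : Fin (n + 2) → A) :
    bp A n (PiTensorProduct.tprod ℂ a) =
      ∑ i : Fin (n + 1), ((-1 : ℂ) ^ (i : ℕ)) • PiTensorProduct.tprod ℂ (fun j : Fin (n + 1) =>
        if j < i then a j.castSucc else if j = i then a i.castSucc * a i.succ else a j.succ) := by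
  rw [bp, PiTensorProduct.lift.tprod, _root_.sum_apply]
  exact Finset.sum_congr rfl fun i _ => rfl

/-- H-unitality: the bar complex `... → A ⊗ A ⊗ A → A ⊗ A → A → 0` is exact -/
def HUnital : Prop :=
  Function.Surjective (bp A 0) ∧ ∀ n : ℕ, LinearMap.range (bp A (n + 1)) = LinearMap.ker (bp A n)

variable {A} in
/-- an algebra which is not spanned by products is not H-unital -/
theorem not_hunital (h : ∃ a : A, a ∉ Submodule.span ℂ {x | ∃ y z : A, x = y * z}) :
    ¬ HUnital A := by
  obtain ⟨a, ha⟩ := h
  intro hU
  let ev : PiTensorProduct ℂ (fun _ : Fin 1 => A) →ₗ[ℂ] A :=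
    (PiTensorProduct.subsingletonEquiv (0 : Fin 1)).toLinearMap
  have hev : ∀ b : Fin 1 → A, ev (PiTensorProduct.tprod ℂ b) = b 0 := by
    intro b
    exact PiTensorProduct.subsingletonEquiv_apply_tprod (0 : Fin 1) b
  have key : ∀ t, ev (bp A 0 t) ∈ Submodule.span ℂ {x | ∃ y z : A, x = y * z} := by
    intro t
    induction t using PiTensorProduct.induction_on with
    | smul_tprod r b =>
      rw [map_smul, map_smul, bp_tprod]
      refine Submodule.smul_mem _ _ ?_
      rw [map_sum]
      refine Submodule.sum_mem _ fun i _ => ?_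
      rw [map_smul, hev]
      refine Submodule.smul_mem _ _ (Submodule.subset_span ?_)
      have hi : i = 0 := Fin.ext (by have := i.2; omega)
      subst hi
      exact ⟨_, _, rfl⟩
    | add x y hx hy =>
      rw [map_add, map_add]
      exact Submodule.add_mem _ hx hy
  obtain ⟨t, ht⟩ := hU.1 (PiTensorProduct.tprod ℂ (fun _ : Fin 1 => a))
  apply ha
  have h2 := key t
  rw [ht, hev] at h2
  exact h2

end

/-- a non-unital subalgebra which is not spanned by its products is not H-unital -/
theorem not_hunital_sub {A : Type u} [NonUnitalRing A] [Module ℂ A] [IsScalarTower ℂ A A]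
    [SMulCommClass ℂ A A] (B : NonUnitalSubalgebra ℂ A)
    (h : ∃ T : A, T ∈ B ∧ T ∉ Submodule.span ℂ {w | ∃ a ∈ B, ∃ b ∈ B, w = a * b}) :
    ¬ HUnital B := by
  obtain ⟨T, hT, hTn⟩ := h
  refine not_hunital ⟨⟨T, hT⟩, fun hmem => hTn ?_⟩
  have h1 : ∀ x : B, x ∈ Submodule.span ℂ {x : B | ∃ y z : B, x = y * z} →
      (x : A) ∈ Submodule.span ℂ {w : A | ∃ a ∈ B, ∃ b ∈ B, w = a * b} := by
    intro x hx
    induction hx using Submodule.span_induction with
    | mem x hx =>
      obtain ⟨y, z, rfl⟩ := hx
      exact Submodule.subset_span ⟨y, y.2, z, z.2, rfl⟩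
    | zero => exact Submodule.zero_mem _
    | add x y _ _ hx hy => exact Submodule.add_mem _ hx hy
    | smul c x _ hx => exact Submodule.smul_mem _ c hx
  exact h1 _ hmem

section
variable (E : Type u) [NormedAddCommGroup E] [NormedSpace ℂ E]

/-- the algebra of compact operators -/
def KE : NonUnitalSubalgebra ℂ (E →L[ℂ] E) where
  carrier := {T | IsCompactOperator T}
  add_mem' := fun ha hb => ha.add hb
  zero_mem' := isCompactOperator_zero
  mul_mem' := fun {_ b} ha _ => ha.comp_clm b
  smul_mem' := fun c _ ha => ha.smul c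

theorem mem_KE {T : E →L[ℂ] E} : T ∈ KE E ↔ IsCompactOperator T := Iff.rfl

/-- the algebra of finite rank operators -/
noncomputable def FR : NonUnitalSubalgebra ℂ (E →L[ℂ] E) where
  carrier := {T | FiniteDimensional ℂ (LinearMap.range (T : E →ₗ[ℂ] E))}
  add_mem' := by
    intro a b ha hb
    have h1 : FiniteDimensional ℂ (LinearMap.range (a : E →ₗ[ℂ] E)) := ha
    have h2 : FiniteDimensional ℂ (LinearMap.range (b : E →ₗ[ℂ] E)) := hb
    have hle : LinearMap.range ((a + b : E →L[ℂ] E) : E →ₗ[ℂ] E) ≤
        LinearMap.range (a : E →ₗ[ℂ] E) ⊔ LinearMap.range (b : E →ₗ[ℂ] E) := by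
      rintro _ ⟨x, rfl⟩
      exact Submodule.add_mem_sup ⟨x, rfl⟩ ⟨x, rfl⟩
    exact Submodule.finiteDimensional_of_le hle
  zero_mem' := by
    show FiniteDimensional ℂ (LinearMap.range ((0 : E →L[ℂ] E) : E →ₗ[ℂ] E))
    rw [ContinuousLinearMap.toLinearMap_zero, LinearMap.range_zero]
    infer_instance
  mul_mem' := by
    intro a b ha _
    have h1 : FiniteDimensional ℂ (LinearMap.range (a : E →ₗ[ℂ] E)) := ha
    have hle : LinearMap.range ((a * b : E →L[ℂ] E) : E →ₗ[ℂ] E) ≤
        LinearMap.range (a : E →ₗ[ℂ] E) := by
      rintro _ ⟨x, rfl⟩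
      exact ⟨b x, rfl⟩
    exact Submodule.finiteDimensional_of_le hle
  smul_mem' := by
    intro c a ha
    have h1 : FiniteDimensional ℂ (LinearMap.range (a : E →ₗ[ℂ] E)) := ha
    have hle : LinearMap.range ((c • a : E →L[ℂ] E) : E →ₗ[ℂ] E) ≤
        LinearMap.range (a : E →ₗ[ℂ] E) := by
      rintro _ ⟨x, rfl⟩
      exact ⟨c • x, by simp⟩
    exact Submodule.finiteDimensional_of_le hle

/-- the algebra of approximable operators: the closure of the finite rank operators -/
noncomputable def FE : NonUnitalSubalgebra ℂ (E →L[ℂ] E) := (FR E).topologicalClosure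

theorem mem_FE {T : E →L[ℂ] E} : T ∈ FE E ↔
    T ∈ closure {S : E →L[ℂ] E | FiniteDimensional ℂ (LinearMap.range (S : E →ₗ[ℂ] E))} := Iff.rfl

theorem mem_FE_iff {T : E →L[ℂ] E} : T ∈ FE E ↔
    ∀ ε : ℝ, 0 < ε → ∃ S : E →L[ℂ] E,
      FiniteDimensional ℂ (LinearMap.range (S : E →ₗ[ℂ] E)) ∧ ‖T - S‖ ≤ ε := by
  rw [mem_FE, Metric.mem_closure_iff]
  constructor
  · intro h ε hε
    obtain ⟨S, hS, hd⟩ := h ε hε
    exact ⟨S, hS, by rw [← dist_eq_norm]; exact hd.le⟩
  · intro h ε hε
    obtain ⟨S, hS, hd⟩ := h (ε / 2) (half_pos hε)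
    exact ⟨S, hS, by rw [dist_eq_norm]; linarith⟩

/-- if the compact operators are not spanned by products, their algebra is not H-unital -/
theorem not_hunital_KE (h : ∃ T : E →L[ℂ] E, T ∈ KE E ∧
    T ∉ Submodule.span ℂ {w : E →L[ℂ] E | ∃ a ∈ KE E, ∃ b ∈ KE E, w = a.comp b}) :
    ¬ HUnital (KE E) :=
  not_hunital_sub (KE E) h

/-- if the approximable operators are not spanned by products, their algebra is not H-unital -/
theorem not_hunital_FE (h : ∃ T : E →L[ℂ] E, T ∈ FE E ∧
    T ∉ Submodule.span ℂ {w : E →L[ℂ] E | ∃ a ∈ FE E, ∃ b ∈ FE E, w = a.comp b}) :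
    ¬ HUnital (FE E) :=
  not_hunital_sub (FE E) h

end

end Pool.Agent.W177.KK
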